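import Mathlib

/-!
# Steiner triple systems of order `2 n - 1` for even `n` not divisible by three
-/

set_option autoImplicit false

namespace RealETF

/-- A Steiner quasigroup. -/
structure SQ (V : Type) where
  op : V → V → V
  comm : ∀ x y, op x y = op y x
  idem : ∀ x, op x x = x
  can : ∀ x y, op x (op x y) = y

namespace SQ

variable {V : Type} (Q : SQ V)

theorem op_ne_left {x y : V} (h : x ≠ y) : Q.op x y ≠ x := by
  intro h1
  have h2 := Q.can x y
  rw [h1, Q.idem] at h2
  exact h h2

theorem op_ne_right {x y : V} (h : x ≠ y) : Q.op x y ≠ y := by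
  rw [Q.comm]
  exact Q.op_ne_left h.symm

theorem can' (x y : V) : Q.op (Q.op x y) x = y := by rw [Q.comm, Q.can]

theorem can'' (x y : V) : Q.op y (Q.op x y) = x := by rw [Q.comm x y, Q.can]

theorem can3 (x y : V) : Q.op (Q.op x y) y = x := by rw [Q.comm, Q.can'']

end SQ

/-- A Steiner triple system. -/
structure STS {V : Type} [DecidableEq V] (B : Finset (Finset V)) : Prop where
  three : ∀ b ∈ B, b.card = 3
  ex : ∀ x y, x ≠ y → ∃ b ∈ B, x ∈ b ∧ y ∈ b
  un : ∀ b ∈ B, ∀ c ∈ B, ∀ x y, x ≠ y → x ∈ b → y ∈ b → x ∈ c → y ∈ c → b = c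

section blocks

variable {V : Type} [Fintype V] [DecidableEq V] (Q : SQ V)

/-- The blocks of a Steiner quasigroup. -/
def blocks : Finset (Finset V) :=
  ((Finset.univ : Finset (V × V)).filter (fun p => p.1 ≠ p.2)).image
    (fun p => {p.1, p.2, Q.op p.1 p.2})

theorem mem_blocks {b : Finset V} :
    b ∈ blocks Q ↔ ∃ x y, x ≠ y ∧ ({x, y, Q.op x y} : Finset V) = b := by
  unfold blocks
  simp only [Finset.mem_image, Finset.mem_filter, Finset.mem_univ, true_and, Prod.exists]

theorem block_eq {b : Finset V} (hb : b ∈ blocks Q) {x y : V} (hxy : x ≠ y) (hx : x ∈ b)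
    (hy : y ∈ b) : b = {x, y, Q.op x y} := by
  obtain ⟨u, v, huv, rfl⟩ := (mem_blocks Q).1 hb
  simp only [Finset.mem_insert, Finset.mem_singleton] at hx hy
  rcases hx with rfl | rfl | rfl <;> rcases hy with rfl | rfl | rfl
  · exact absurd rfl hxy
  · rfl
  · rw [Q.can]
    ext z; simp only [Finset.mem_insert, Finset.mem_singleton]; tauto
  · rw [Q.comm y x]
    ext z; simp only [Finset.mem_insert, Finset.mem_singleton]; tauto
  · exact absurd rfl hxy
  · rw [Q.can'']
    ext z; simp only [Finset.mem_insert, Finset.mem_singleton]; tauto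
  · rw [Q.can']
    ext z; simp only [Finset.mem_insert, Finset.mem_singleton]; tauto
  · rw [Q.can3]
    ext z; simp only [Finset.mem_insert, Finset.mem_singleton]; tauto
  · exact absurd rfl hxy

theorem sts_blocks : STS (blocks Q) where
  three := by
    intro b hb
    obtain ⟨x, y, hxy, rfl⟩ := (mem_blocks Q).1 hb
    rw [Finset.card_eq_three]
    exact ⟨x, y, Q.op x y, hxy, (Q.op_ne_left hxy).symm, (Q.op_ne_right hxy).symm, rfl⟩
  ex := by
    intro x y hxy
    exact ⟨_, (mem_blocks Q).2 ⟨x, y, hxy, rfl⟩, by simp, by simp⟩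
  un := by
    intro b hb c hc x y hxy h1 h2 h3 h4
    rw [block_eq Q hb hxy h1 h2, block_eq Q hc hxy h3 h4]

end blocks

/-- The construction of Bose: order `3 M`, `M` odd. -/
def bose (M : ℕ) (h : ZMod M) (h2 : 2 * h = 1) : SQ (ZMod M × ZMod 3) where
  op p q := if p.2 = q.2 then (if p.1 = q.1 then p else (h * (p.1 + q.1), p.2 + 1))
    else if p.1 = q.1 then (p.1, -(p.2 + q.2))
    else if q.2 = p.2 + 1 then (2 * q.1 - p.1, p.2) else (2 * p.1 - q.1, q.2)
  comm := by
    rintro ⟨x, i⟩ ⟨y, j⟩
    simp only
    by_cases hij : i = j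
    · subst hij
      by_cases hxy : x = y
      · subst hxy; simp
      · simp [hxy, Ne.symm hxy, add_comm]
    · by_cases hxy : x = y
      · subst hxy
        simp [hij, Ne.symm hij, add_comm]
      · have key : (j = i + 1 ∧ ¬ i = j + 1) ∨ (¬ j = i + 1 ∧ i = j + 1) := by
          revert hij; revert i j; decide
        rcases key with ⟨h1, h3⟩ | ⟨h1, h3⟩
        · simp only [hij, Ne.symm hij, hxy, Ne.symm hxy, if_false, if_pos h1, if_neg h3]
        · simp only [hij, Ne.symm hij, hxy, Ne.symm hxy, if_false, if_neg h1, if_pos h3]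
  idem := by
    rintro ⟨x, i⟩
    simp
  can := by
    rintro ⟨x, i⟩ ⟨y, j⟩
    have hcancel : ∀ a b : ZMod M, 2 * a = 2 * b → a = b := by
      intro a b hab
      calc a = (2 * h) * a := by rw [h2, one_mul]
        _ = h * (2 * a) := by ring
        _ = h * (2 * b) := by rw [hab]
        _ = (2 * h) * b := by ring
        _ = b := by rw [h2, one_mul]
    simp only
    by_cases hij : i = j
    · subst hij
      by_cases hxy : x = y
      · subst hxy; simp
      · have hi : ¬ i = i + 1 := by revert i; decide
        have hx : ¬ x = h * (x + y) := by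
          intro hx
          apply hxy
          have : 2 * x = x + y := by
            calc 2 * x = 2 * (h * (x + y)) := by rw [← hx]
              _ = (2 * h) * (x + y) := by ring
              _ = x + y := by rw [h2, one_mul]
          linear_combination this
        simp only [hxy, if_true, if_false, hi, hx]
        refine Prod.ext ?_ rfl
        show 2 * (h * (x + y)) - x = y
        linear_combination (x + y) * h2
    · by_cases hxy : x = y
      · subst hxy
        have hi : ¬ i = -(i + j) := by revert hij; revert i j; decide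
        have hk : -(i + -(i + j)) = j := by ring
        simp only [hij, if_true, if_false, hi, hk]
      · have key : (j = i + 1 ∧ ¬ i = j + 1) ∨ (¬ j = i + 1 ∧ i = j + 1) := by
          revert hij; revert i j; decide
        rcases key with ⟨h1, h3⟩ | ⟨h1, h3⟩
        · have hx : ¬ x = 2 * y - x := by
            intro hx
            exact hxy (hcancel _ _ (by linear_combination hx))
          simp only [hij, hxy, if_true, if_false, if_pos h1, hx]
          refine Prod.ext ?_ h1.symm
          show h * (x + (2 * y - x)) = y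
          linear_combination y * h2
        · have hx : ¬ x = 2 * x - y := by
            intro hx
            exact hxy (by linear_combination -hx)
          simp only [hij, hxy, if_false, if_neg h1, hx]
          refine Prod.ext ?_ rfl
          show 2 * x - (2 * x - y) = y
          ring

/-- Doubling: from order `w` to order `2 w + 1`. -/
def double {W : Type} [DecidableEq W] (Q : SQ W) : SQ (Option (W × Bool)) where
  op p q := match p, q with
    | none, none => none
    | none, some (y, b) => some (y, !b)
    | some (x, a), none => some (x, !a)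
    | some (x, a), some (y, b) =>
      if x = y then (if a = b then some (x, a) else none) else some (Q.op x y, xor a b)
  comm := by
    rintro (_ | ⟨x, a⟩) (_ | ⟨y, b⟩)
    · rfl
    · rfl
    · rfl
    · by_cases hxy : x = y
      · subst hxy
        by_cases hab : a = b
        · subst hab; rfl
        · simp [hab, Ne.symm hab]
      · simp [hxy, Ne.symm hxy, Q.comm x y, Bool.xor_comm a b]
  idem := by
    rintro (_ | ⟨x, a⟩)
    · rfl
    · simp
  can := by
    rintro (_ | ⟨x, a⟩) (_ | ⟨y, b⟩)
    · rfl
    · simp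
    · cases a <;> simp
    · by_cases hxy : x = y
      · subst hxy
        by_cases hab : a = b
        · subst hab; simp
        · cases a <;> cases b <;> simp_all
      · have h1 : ¬ x = Q.op x y := fun h => Q.op_ne_left hxy h.symm
        cases a <;> cases b <;> simp [hxy, h1, Q.can]

theorem card_bose (M : ℕ) [NeZero M] : Fintype.card (ZMod M × ZMod 3) = 3 * M := by
  rw [Fintype.card_prod, ZMod.card, ZMod.card, mul_comm]

theorem exists_half {M : ℕ} (hM : Odd M) : ∃ h : ZMod M, 2 * h = 1 := by
  obtain ⟨k, rfl⟩ := hM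
  refine ⟨(k + 1 : ℕ), ?_⟩
  have : (2 : ZMod (2 * k + 1)) * ((k + 1 : ℕ) : ZMod (2 * k + 1)) =
      ((2 * k + 1 : ℕ) : ZMod (2 * k + 1)) + 1 := by
    push_cast; ring
  rw [this, ZMod.natCast_self, zero_add]

/-- Steiner triple systems of order `2 n - 1`. -/
theorem exists_sts {n : ℕ} (hn : Even n) (h3 : n % 3 ≠ 0) (h4 : 4 ≤ n) :
    ∃ (V : Type) (_ : Fintype V) (_ : DecidableEq V) (B : Finset (Finset V)),
      STS B ∧ Fintype.card V = 2 * n - 1 := by
  obtain ⟨m, rfl⟩ := hn
  by_cases h : (m + m) % 3 = 2
  · -- order `3 M`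
    obtain ⟨M, hM⟩ : ∃ M, 2 * (m + m) - 1 = 3 * M := ⟨(2 * (m + m) - 1) / 3, by omega⟩
    have hodd : Odd M := by
      rw [← Nat.not_even_iff_odd]
      rintro ⟨k, rfl⟩
      omega
    haveI : NeZero M := ⟨by rintro rfl; omega⟩
    obtain ⟨h, hh⟩ := exists_half hodd
    exact ⟨ZMod M × ZMod 3, inferInstance, inferInstance, blocks (bose M h hh),
      sts_blocks _, by rw [card_bose, hM]⟩
  · obtain ⟨M, hM⟩ : ∃ M, m + m - 1 = 3 * M := ⟨(m + m - 1) / 3, by omega⟩
    have hodd : Odd M := by
      rw [← Nat.not_even_iff_odd]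
      rintro ⟨k, rfl⟩
      omega
    haveI : NeZero M := ⟨by rintro rfl; omega⟩
    obtain ⟨h, hh⟩ := exists_half hodd
    refine ⟨Option ((ZMod M × ZMod 3) × Bool), inferInstance, inferInstance,
      blocks (double (bose M h hh)), sts_blocks _, ?_⟩
    rw [Fintype.card_option, Fintype.card_prod, card_bose, Fintype.card_bool]
    omega

end RealETF
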