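import Pool.Agent.Lib_MP_3de5be_trip.Tre
import Pool.Agent.Lib_MP_3de5be_trip.Sts
import Pool.Agent.Lib_MP_3de5be_an.RStA

/-!
# Steiner frames and Tremain frames from Hadamard matrices, and their complements
-/

set_option autoImplicit false

namespace RealETF

open HadCalc

theorem had_sq {n : ℕ} {H : Matrix (Fin n) (Fin n) ℤ} (hH : IsHad H) (a b : Fin n) :
    (H a b : ℝ) * (H a b : ℝ) = 1 := by
  rcases hH.1 a b with h | h <;> rw [h] <;> norm_num

/-- The data exist. -/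
theorem exists_dat {n : ℕ} (he : Even n) (h3 : n % 3 ≠ 0) (h4 : 4 ≤ n) (h1 : HadOrder n) :
    ∃ (V : Type) (_ : Fintype V) (_ : DecidableEq V) (B : Finset (Finset V)) (i0 : Fin n)
      (h : Fin n → Fin n → ℝ) (s : V → {b // b ∈ B} → Fin n), Dat B n i0 h s := by
  obtain ⟨V, i1, i2, B, hB, hV⟩ := exists_sts he h3 h4
  obtain ⟨H, hH⟩ := h1
  have i0 : Fin n := ⟨0, by omega⟩
  obtain ⟨s, s1, s2, s3⟩ := hB.exists_sigma hV i0
  exact ⟨V, i1, i2, B, i0, fun a c => (H a c : ℝ), s, hB, hV, h4, had_sq hH, sta_rows hH,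
    sta_cols (by omega) hH, s1, s2, s3⟩

theorem exists_dat2 {V : Type} [Fintype V] [DecidableEq V] {n : ℕ} (hV : Fintype.card V = 2 * n - 1)
    (hn : 1 ≤ n) (h2 : HadOrder (2 * n)) : ∃ g : Fin (2 * n) → Option V → ℝ, Dat2 n g := by
  obtain ⟨H, hH⟩ := h2
  have hc : Fintype.card (Option V) = 2 * n := by
    rw [Fintype.card_option, hV]; omega
  let e : Option V ≃ Fin (2 * n) := Fintype.equivFinOfCardEq hc
  refine ⟨fun t x => (H t (e x) : ℝ), fun t x => had_sq hH _ _, fun t t' => ?_, fun x y => ?_⟩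
  · rw [Equiv.sum_comp e (fun j => (H t j : ℝ) * (H t' j : ℝ)), sta_rows hH]
    push_cast
    rfl
  · rw [sta_cols (by omega) hH]
    simp only [EmbeddingLike.apply_eq_iff_eq]
    push_cast
    rfl

theorem quad {n : ℕ} (he : Even n) (h3 : n % 3 ≠ 0) (h4 : 4 ≤ n) (h1 : HadOrder n)
    (h2 : HadOrder (2 * n)) {N d : ℕ}
    (hNd : (N = n * (2 * n - 1) ∧ (3 * d = (n - 1) * (2 * n - 1) ∨ 3 * d = (2 * n + 1) * (2 * n - 1))) ∨
      (N = n * (2 * n + 1) ∧ (3 * d = (n + 1) * (2 * n + 1) ∨ 3 * d = (2 * n + 1) * (2 * n - 1)))) :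
    cFrame N d = Real.sqrt (((N : ℝ) - d) / (d * ((N : ℝ) - 1))) := by
  obtain ⟨V, i1, i2, B, i0, h, s, D⟩ := exists_dat he h3 h4 h1
  obtain ⟨g, E⟩ := exists_dat2 D.cV (by omega) h2
  obtain ⟨m, rfl⟩ : ∃ m, n = m + 1 := ⟨n - 1, by omega⟩
  have hB : 3 * B.card = m * (2 * m + 1) := by
    have := D.sts.count3 D.cV
    rwa [show m + 1 - 1 = m by omega, show 2 * (m + 1) - 1 = 2 * m + 1 by omega] at this
  have e1 : 2 * (m + 1) - 1 = 2 * m + 1 := by omega
  have e2 : m + 1 - 1 = m := by omega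
  have cB : Fintype.card {b // b ∈ B} = B.card := Fintype.card_coe B
  have cι : Fintype.card (V × Fin (m + 1)) = (m + 1) * (2 * m + 1) := by
    rw [Fintype.card_prod, D.cV, Fintype.card_fin, e1, mul_comm]
  have cι' : Fintype.card ((V × Fin (m + 1)) ⊕ Fin (2 * (m + 1))) = (m + 1) * (2 * m + 3) := by
    rw [Fintype.card_sum, cι, Fintype.card_fin]
    ring
  have cκ' : 3 * Fintype.card ({b // b ∈ B} ⊕ Option V) = (m + 2) * (2 * m + 3) := by
    rw [Fintype.card_sum, cB, Fintype.card_option, D.cV, e1, mul_add, hB]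
    ring
  have hm3 : 3 ≤ m := by omega
  rw [e1, e2] at hNd
  -- the Steiner frame
  have hS : IsEtf ((m + 1) * (2 * m + 1)) B.card (fun (q : V × Fin (m + 1)) (b : {b // b ∈ B}) =>
      ent h s q b / Real.sqrt (((m + 1 : ℕ) : ℝ) - 1)) :=
    D.steiner (by rw [e1]) (by rw [e1, e2]; exact hB)
  -- the Tremain frame
  obtain ⟨c, hc⟩ : ∃ c : ℝ, c * c = 3 / 2 := ⟨_, Real.mul_self_sqrt (by norm_num)⟩
  have ha : Real.sqrt 2 * Real.sqrt 2 = 2 := Real.mul_self_sqrt (by norm_num)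
  have hb : Real.sqrt 2 / 2 * (Real.sqrt 2 / 2) = 1 / 2 := by linear_combination (1 / 4) * ha
  have hab : Real.sqrt 2 / 2 * Real.sqrt 2 = 1 := by linear_combination (1 / 2) * ha
  have hT := D.tremain E (N := (m + 1) * (2 * m + 3))
    (d := Fintype.card ({b // b ∈ B} ⊕ Option V)) (by ring_nf) (by rw [cκ']; ring_nf) ha hb hab hc
  have hB1 : 1 ≤ B.card := by
    by_contra hcon
    have : B.card = 0 := by omega
    rw [this] at hB
    have : 0 < m * (2 * m + 1) := by positivity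
    omega
  rcases hNd with ⟨hN, hd | hd⟩ | ⟨hN, hd | hd⟩
  · have hdB : d = B.card := by omega
    rw [hN, hdB]
    exact hS.cFrame_eq (by nlinarith) hB1 cι cB
  · rw [hN]
    have hN' : B.card + d = (m + 1) * (2 * m + 1) := by
      have : 3 * (B.card + d) = 3 * ((m + 1) * (2 * m + 1)) := by
        rw [mul_add, hB, hd]; ring
      omega
    refine hS.compl hB1 ?_ hN' cι cB
    by_contra hcon
    have h0 : d = 0 := by omega
    rw [h0] at hd
    have : 0 < (2 * (m + 1) + 1) * (2 * m + 1) := by positivity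
    omega
  · have hdB : d = Fintype.card ({b // b ∈ B} ⊕ Option V) := by
      have : 3 * d = 3 * Fintype.card ({b // b ∈ B} ⊕ Option V) := by
        rw [hd, cκ']; ring
      omega
    have hN2 : N = (m + 1) * (2 * m + 3) := by rw [hN]; ring
    have hd1 : 1 ≤ Fintype.card ({b // b ∈ B} ⊕ Option V) := by
      rw [Fintype.card_sum, cB]; omega
    rw [hN2, hdB]
    exact hT.cFrame_eq (by nlinarith) hd1 cι' rfl
  · have hN2 : N = (m + 1) * (2 * m + 3) := by rw [hN]; ring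
    rw [hN2]
    have hd1 : 1 ≤ Fintype.card ({b // b ∈ B} ⊕ Option V) := by
      rw [Fintype.card_sum, cB]; omega
    have hN' : Fintype.card ({b // b ∈ B} ⊕ Option V) + d = (m + 1) * (2 * m + 3) := by
      have : 3 * (Fintype.card ({b // b ∈ B} ⊕ Option V) + d) = 3 * ((m + 1) * (2 * m + 3)) := by
        rw [mul_add, cκ', hd]; ring
      omega
    refine hT.compl hd1 ?_ hN' cι' rfl
    by_contra hcon
    have h0 : d = 0 := by omega
    rw [h0] at hd
    have : 0 < (2 * (m + 1) + 1) * (2 * m + 1) := by positivity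
    omega

end RealETF
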