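import Pool.Agent.Lib_MP_3de5be_trip.Sts

/-!
# Incidences of a Steiner triple system
-/

set_option autoImplicit false

namespace RealETF

variable {V : Type} [Fintype V] [DecidableEq V] {B : Finset (Finset V)}

theorem STS.deg (h : STS B) (p : V) :
    2 * (B.filter (fun b => p ∈ b)).card = Fintype.card V - 1 := by
  have h1 : (Finset.univ.erase p : Finset V) =
      (B.filter (fun b => p ∈ b)).biUnion (fun b => b.erase p) := by
    ext y
    simp only [Finset.mem_erase, Finset.mem_univ, and_true, Finset.mem_biUnion,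
      Finset.mem_filter]
    constructor
    · intro hy
      obtain ⟨b, hb, h1, h2⟩ := h.ex y p hy
      exact ⟨b, ⟨hb, h2⟩, hy, h1⟩
    · rintro ⟨b, _, hy, _⟩
      exact hy
  have h2 : (Finset.univ.erase p : Finset V).card = Fintype.card V - 1 := by
    rw [Finset.card_erase_of_mem (Finset.mem_univ _), Finset.card_univ]
  rw [← h2, h1, Finset.card_biUnion]
  · rw [Finset.sum_congr rfl (g := fun _ => 2)]
    · rw [Finset.sum_const, smul_eq_mul, mul_comm]
    · intro b hb
      rw [Finset.mem_filter] at hb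
      rw [Finset.card_erase_of_mem hb.2, h.three b hb.1]
  · intro b hb c hc hbc
    rw [Finset.mem_coe, Finset.mem_filter] at hb hc
    show Disjoint (b.erase p) (c.erase p)
    rw [Finset.disjoint_left]
    intro y hy hy'
    rw [Finset.mem_erase] at hy hy'
    exact hbc (h.un b hb.1 c hc.1 y p hy.1 hy.2 hb.2 hy'.2 hc.2)

theorem STS.count (h : STS B) :
    3 * B.card = ∑ p : V, (B.filter (fun b => p ∈ b)).card := by
  have h1 : ∑ b ∈ B, b.card = 3 * B.card := by
    rw [Finset.sum_congr rfl h.three, Finset.sum_const, smul_eq_mul, mul_comm]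
  rw [← h1]
  have h2 : ∀ b ∈ B, b.card = ∑ p : V, if p ∈ b then 1 else 0 := by
    intro b _
    rw [Finset.sum_boole]
    simp
  rw [Finset.sum_congr rfl h2, Finset.sum_comm]
  refine Finset.sum_congr rfl fun p _ => ?_
  rw [Finset.card_filter]

theorem STS.deg' (h : STS B) {n : ℕ} (hV : Fintype.card V = 2 * n - 1) (p : V) :
    (B.filter (fun b => p ∈ b)).card = n - 1 := by
  have := h.deg p
  omega

theorem STS.count' (h : STS B) {n : ℕ} (hV : Fintype.card V = 2 * n - 1) :
    B.card = (n - 1) * (2 * n - 1) / 3 := by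
  have h1 := h.count
  simp only [h.deg' hV, Finset.sum_const, Finset.card_univ, hV, smul_eq_mul] at h1
  have : 3 * B.card = (n - 1) * (2 * n - 1) := by rw [h1, mul_comm]
  omega

theorem STS.count3 (h : STS B) {n : ℕ} (hV : Fintype.card V = 2 * n - 1) :
    3 * B.card = (n - 1) * (2 * n - 1) := by
  have h1 := h.count
  simp only [h.deg' hV, Finset.sum_const, Finset.card_univ, hV, smul_eq_mul] at h1
  rw [h1, mul_comm]

theorem STS.exists_sigma (h : STS B) {n : ℕ} (hV : Fintype.card V = 2 * n - 1) (i0 : Fin n) :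
    ∃ s : V → {b // b ∈ B} → Fin n,
      (∀ p b, p ∈ b.1 → s p b ≠ i0) ∧
      (∀ p b c, p ∈ b.1 → p ∈ c.1 → s p b = s p c → b = c) ∧
      (∀ p (f : Fin n → ℝ), ∑ b : {b // b ∈ B}, (if p ∈ b.1 then f (s p b) else 0) =
        ∑ i, f i - f i0) := by
  have hc : ∀ p : V, (B.filter (fun b => p ∈ b)).card = (Finset.univ.erase i0 : Finset (Fin n)).card := by
    intro p
    rw [h.deg' hV, Finset.card_erase_of_mem (Finset.mem_univ _), Finset.card_univ, Fintype.card_fin]
  let e := fun p : V => Finset.equivOfCardEq (hc p)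
  let s : V → {b // b ∈ B} → Fin n := fun p b =>
    if hb : p ∈ b.1 then (e p ⟨b.1, Finset.mem_filter.2 ⟨b.2, hb⟩⟩).1 else i0
  have hs : ∀ p b (hb : p ∈ b.1), s p b = (e p ⟨b.1, Finset.mem_filter.2 ⟨b.2, hb⟩⟩).1 := by
    intro p b hb
    exact dif_pos hb
  refine ⟨s, ?_, ?_, ?_⟩
  · intro p b hb
    rw [hs p b hb]
    exact (Finset.mem_erase.1 (e p ⟨b.1, Finset.mem_filter.2 ⟨b.2, hb⟩⟩).2).1
  · intro p b c hb hc' hbc
    rw [hs p b hb, hs p c hc'] at hbc
    have := (e p).injective (Subtype.ext hbc)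
    have h9 := congrArg Subtype.val this
    exact Subtype.ext h9
  · intro p f
    rw [← Finset.sum_filter, ← Finset.sum_erase_eq_sub (Finset.mem_univ i0)]
    refine Finset.sum_bij (fun b _ => s p b) ?_ ?_ ?_ ?_
    · intro b hb
      have hb' : p ∈ b.1 := (Finset.mem_filter.1 hb).2
      rw [hs p b hb']
      exact (e p ⟨b.1, Finset.mem_filter.2 ⟨b.2, hb'⟩⟩).2
    · intro b hb c hc' hbc
      have hb' : p ∈ b.1 := (Finset.mem_filter.1 hb).2
      have hc'' : p ∈ c.1 := (Finset.mem_filter.1 hc').2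
      rw [hs p b hb', hs p c hc''] at hbc
      have := (e p).injective (Subtype.ext hbc)
      have h9 := congrArg Subtype.val this
      exact Subtype.ext h9
    · intro i hi
      obtain ⟨x, hx⟩ := (e p).surjective ⟨i, hi⟩
      have hx2 := Finset.mem_filter.1 x.2
      refine ⟨⟨x.1, hx2.1⟩, Finset.mem_filter.2 ⟨Finset.mem_univ _, hx2.2⟩, ?_⟩
      rw [hs p ⟨x.1, hx2.1⟩ hx2.2]
      have : (⟨x.1, Finset.mem_filter.2 ⟨hx2.1, hx2.2⟩⟩ :
          {y // y ∈ B.filter (fun b => p ∈ b)}) = x := Subtype.ext rfl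
      show (e p ⟨x.1, _⟩).1 = i
      rw [this, hx]
    · intro b _
      rfl

end RealETF
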