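import Pool.Agent.Lib_MP_3de5be_an.REtf

/-!
# The complement of a real equiangular tight frame
-/

set_option autoImplicit false

namespace RealETF

/-- A real equiangular tight frame of `N` vectors in dimension `d`, as a matrix. -/
structure IsEtf {ι κ : Type} [Fintype ι] [Fintype κ] [DecidableEq κ] (N d : ℕ)
    (G : ι → κ → ℝ) : Prop where
  one : ∀ i, ∑ k, G i k ^ 2 = 1
  coh : ∀ i j, i ≠ j → |∑ k, G i k * G j k| = Real.sqrt (((N : ℝ) - d) / (d * ((N : ℝ) - 1)))
  tight : ∀ k l, ∑ i, G i k * G i l = if k = l then (N : ℝ) / d else 0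

theorem IsEtf.cFrame_eq {ι κ : Type} [Fintype ι] [DecidableEq ι] [Fintype κ] [DecidableEq κ]
    {N d : ℕ} (hN : 2 ≤ N) (hd : 1 ≤ d) (hι : Fintype.card ι = N) (hκ : Fintype.card κ = d)
    {G : ι → κ → ℝ} (h : IsEtf N d G) :
    cFrame N d = Real.sqrt (((N : ℝ) - d) / (d * ((N : ℝ) - 1))) :=
  RealETF.cFrame_eq hN hd hι hκ G h.one h.coh h.tight

/-- The complement: `N` vectors in dimension `e = N - d`. -/
theorem IsEtf.compl {ι κ : Type} [Fintype ι] [DecidableEq ι] [Fintype κ] [DecidableEq κ]
    {N d e : ℕ} (hd : 1 ≤ d) (he : 1 ≤ e) (hde : d + e = N) (hι : Fintype.card ι = N)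
    (hκ : Fintype.card κ = d) {G : ι → κ → ℝ} (h : IsEtf N d G) :
    cFrame N e = Real.sqrt (((N : ℝ) - e) / (e * ((N : ℝ) - 1))) := by
  classical
  have hd0 : (0 : ℝ) < d := by exact_mod_cast hd
  have he0 : (0 : ℝ) < e := by exact_mod_cast he
  have hNr : (N : ℝ) = d + e := by rw [← hde]; push_cast; ring
  have hN0 : (0 : ℝ) < N := by rw [hNr]; linarith
  have hN1 : (0 : ℝ) < (N : ℝ) - 1 := by
    have h1 : (1 : ℝ) ≤ d := by exact_mod_cast hd
    have h2 : (1 : ℝ) ≤ e := by exact_mod_cast he
    rw [hNr]; linarith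
  obtain ⟨al, hal⟩ : ∃ al : ℝ, al * al = (d : ℝ) / N :=
    ⟨_, Real.mul_self_sqrt (by positivity)⟩
  obtain ⟨be, hbe⟩ : ∃ be : ℝ, be * be = (N : ℝ) / e :=
    ⟨_, Real.mul_self_sqrt (by positivity)⟩
  -- the orthonormal columns
  let u : κ → EuclideanSpace ℝ ι := fun k => WithLp.toLp 2 (fun i => al * G i k)
  have hu : ∀ k i, u k i = al * G i k := fun k i => rfl
  have hon : Orthonormal ℝ u := by
    rw [orthonormal_iff_ite]
    intro k l
    rw [PiLp.inner_apply]
    have : ∀ i, inner ℝ (u k i) (u l i) = (d / N) * (G i k * G i l) := by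
      intro i
      rw [hu, hu, ← hal]
      simp only [RCLike.inner_apply, conj_trivial]
      ring
    simp only [this]
    rw [← Finset.mul_sum, h.tight]
    split_ifs
    · field_simp
    · simp
  -- extend to an orthonormal basis indexed by `κ ⊕ Fin e`
  let v : κ ⊕ Fin e → EuclideanSpace ℝ ι := Sum.elim u (fun _ => 0)
  have hcard : Module.finrank ℝ (EuclideanSpace ℝ ι) = Fintype.card (κ ⊕ Fin e) := by
    rw [finrank_euclideanSpace, Fintype.card_sum, Fintype.card_fin, hκ, hι, hde]
  have hv : Orthonormal ℝ ((Set.range (Sum.inl : κ → κ ⊕ Fin e)).restrict v) := by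
    let eq : Set.range (Sum.inl : κ → κ ⊕ Fin e) ≃ κ :=
      (Equiv.ofInjective _ Sum.inl_injective).symm
    have : (Set.range (Sum.inl : κ → κ ⊕ Fin e)).restrict v = u ∘ eq := by
      funext x
      obtain ⟨k, hk⟩ : ∃ k, x = Equiv.ofInjective _ Sum.inl_injective k :=
        ⟨eq x, by simp [eq]⟩
      subst hk
      simp [eq, v, Set.restrict]
    rw [this]
    exact hon.comp eq eq.injective
  obtain ⟨b, hb⟩ := hv.exists_orthonormalBasis_extension_of_card_eq hcard
  have hb' : ∀ k i, b (Sum.inl k) i = al * G i k := by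
    intro k i
    rw [hb _ ⟨k, rfl⟩]
    rfl
  -- rows of the orthogonal matrix
  have hrow : ∀ i j, ∑ x : κ ⊕ Fin e, b x i * b x j = if i = j then 1 else 0 := by
    intro i j
    have h1 := b.sum_inner_mul_inner (EuclideanSpace.single i (1 : ℝ)) (EuclideanSpace.single j 1)
    simp only [EuclideanSpace.inner_single_left, EuclideanSpace.inner_single_right,
      conj_trivial, one_mul, map_one, mul_one] at h1
    rw [h1, EuclideanSpace.single_apply]
    simp only [eq_comm]
  have hG' : ∀ i j, ∑ x : Fin e, b (Sum.inr x) i * b (Sum.inr x) j =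
      (if i = j then 1 else 0) - (d / N) * ∑ k, G i k * G j k := by
    intro i j
    rw [← hrow i j, Fintype.sum_sum_type, Finset.mul_sum]
    have : ∀ k, b (Sum.inl k) i * b (Sum.inl k) j = (d / N) * (G i k * G j k) := by
      intro k
      rw [hb', hb', ← hal]; ring
    simp only [this]
    ring
  have hcoef : ∀ i j, ∑ x : Fin e, (be * b (Sum.inr x) i) *
      (be * b (Sum.inr x) j) =
      (N / e) * ((if i = j then 1 else 0) - (d / N) * ∑ k, G i k * G j k) := by
    intro i j
    rw [← hG', Finset.mul_sum]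
    refine Finset.sum_congr rfl fun x _ => ?_
    rw [← hbe]; ring
  refine RealETF.cFrame_eq (ι := ι) (κ := Fin e) (N := N) (d := e) (by omega) he hι
    (Fintype.card_fin e) (fun i x => be * b (Sum.inr x) i) ?_ ?_ ?_
  · intro i
    have h1 := hcoef i i
    simp only [if_true] at h1
    have h2 : ∑ k, G i k * G i k = 1 := by
      rw [← h.one i]
      exact Finset.sum_congr rfl fun k _ => by ring
    rw [h2] at h1
    calc ∑ x : Fin e, (be * b (Sum.inr x) i) ^ 2
        = ∑ x : Fin e, (be * b (Sum.inr x) i) *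
          (be * b (Sum.inr x) i) := Finset.sum_congr rfl fun x _ => by ring
      _ = 1 := by
        rw [h1]
        have : (1 : ℝ) - d / N * 1 = e / N := by
          rw [hNr]; field_simp; ring
        rw [this]
        field_simp
  · intro i j hij
    rw [hcoef, if_neg hij]
    have h1 : (N / e : ℝ) * (0 - d / N * ∑ k, G i k * G j k) = -((d / e) * ∑ k, G i k * G j k) := by
      field_simp
      ring
    rw [h1, abs_neg, abs_mul, h.coh i j hij, abs_of_pos (div_pos hd0 he0)]
    have h2 : (d / e : ℝ) = Real.sqrt ((d / e) ^ 2) := (Real.sqrt_sq (by positivity)).symm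
    rw [h2, ← Real.sqrt_mul (by positivity)]
    congr 1
    have h3 : (N : ℝ) - d = e := by rw [hNr]; ring
    have h4 : (N : ℝ) - e = d := by rw [hNr]; ring
    rw [h3, h4]
    field_simp
  · intro x y
    have h1 : ∑ i, b (Sum.inr x) i * b (Sum.inr y) i = if x = y then 1 else 0 := by
      have h2 := (orthonormal_iff_ite.1 b.orthonormal) (Sum.inr x) (Sum.inr y)
      rw [PiLp.inner_apply] at h2
      simp only [RCLike.inner_apply, conj_trivial, Sum.inr.injEq] at h2
      rw [← h2]
      exact Finset.sum_congr rfl fun i _ => mul_comm _ _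
    calc ∑ i, (be * b (Sum.inr x) i) * (be * b (Sum.inr y) i)
        = (N / e) * ∑ i, b (Sum.inr x) i * b (Sum.inr y) i := by
          rw [Finset.mul_sum]
          refine Finset.sum_congr rfl fun i _ => ?_
          rw [← hbe]; ring
      _ = _ := by
        rw [h1]
        split_ifs <;> simp

end RealETF
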