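import Pool.Agent.Lib_MP_3de5be_trip.Inc
import Pool.Agent.Lib_MP_3de5be_trip.Nai

/-!
# The block part of the frames
-/

set_option autoImplicit false

namespace RealETF

/-- The data: a Steiner triple system, rows of a Hadamard matrix for the blocks through a point. -/
structure Dat {V : Type} [Fintype V] [DecidableEq V] (B : Finset (Finset V)) (n : ℕ) (i0 : Fin n)
    (h : Fin n → Fin n → ℝ) (s : V → {b // b ∈ B} → Fin n) : Prop where
  sts : STS B
  cV : Fintype.card V = 2 * n - 1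
  n4 : 4 ≤ n
  sq : ∀ a c, h a c * h a c = 1
  row : ∀ a b, ∑ c, h a c * h b c = if a = b then (n : ℝ) else 0
  col : ∀ c d, ∑ a, h a c * h a d = if c = d then (n : ℝ) else 0
  ne : ∀ p b, p ∈ b.1 → s p b ≠ i0
  inj : ∀ p b c, p ∈ b.1 → p ∈ c.1 → s p b = s p c → b = c
  sum : ∀ p (f : Fin n → ℝ), ∑ b : {b // b ∈ B}, (if p ∈ b.1 then f (s p b) else 0) =
    ∑ i, f i - f i0

/-- The entries in the block coordinates. -/
def ent {V : Type} [DecidableEq V] {B : Finset (Finset V)} {n : ℕ}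
    (h : Fin n → Fin n → ℝ) (s : V → {b // b ∈ B} → Fin n) (q : V × Fin n) (b : {b // b ∈ B}) : ℝ :=
  if q.1 ∈ b.1 then h (s q.1 b) q.2 else 0

variable {V : Type} [Fintype V] [DecidableEq V] {B : Finset (Finset V)} {n : ℕ} {i0 : Fin n}
  {h : Fin n → Fin n → ℝ} {s : V → {b // b ∈ B} → Fin n}

theorem Dat.abs (D : Dat B n i0 h s) (a c : Fin n) : |h a c| = 1 := by
  have h1 := D.sq a c
  have h2 : |h a c| * |h a c| = 1 := by rw [← abs_mul, h1, abs_one]
  have h3 : 0 ≤ |h a c| := abs_nonneg _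
  nlinarith

theorem Dat.inner_same (D : Dat B n i0 h s) (p : V) (c d : Fin n) :
    ∑ b, ent h s (p, c) b * ent h s (p, d) b =
      (if c = d then (n : ℝ) else 0) - h i0 c * h i0 d := by
  rw [← D.col c d, ← D.sum p (fun i => h i c * h i d)]
  refine Finset.sum_congr rfl fun b _ => ?_
  simp only [ent]
  split_ifs <;> simp

theorem Dat.inner_diff (D : Dat B n i0 h s) {p q : V} (hpq : p ≠ q) (c d : Fin n) :
    |∑ b, ent h s (p, c) b * ent h s (q, d) b| = 1 := by
  obtain ⟨b, hb, h1, h2⟩ := D.sts.ex p q hpq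
  rw [Finset.sum_eq_single (⟨b, hb⟩ : {b // b ∈ B})]
  · simp only [ent, if_pos h1, if_pos h2]
    rw [abs_mul, D.abs, D.abs, one_mul]
  · intro c' _ hc
    simp only [ent]
    by_cases h3 : p ∈ c'.1
    · by_cases h4 : q ∈ c'.1
      · exact absurd (Subtype.ext (D.sts.un c'.1 c'.2 b hb p q hpq h3 h4 h1 h2)) hc
      · rw [if_neg h4, mul_zero]
    · rw [if_neg h3, zero_mul]
  · intro h3
    exact absurd (Finset.mem_univ _) h3

theorem Dat.tight_block (D : Dat B n i0 h s) (k l : {b // b ∈ B}) :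
    ∑ q : V × Fin n, ent h s q k * ent h s q l = if k = l then 3 * (n : ℝ) else 0 := by
  rw [← Finset.univ_product_univ, Finset.sum_product]
  have h1 : ∀ p : V, ∑ c : Fin n, ent h s (p, c) k * ent h s (p, c) l =
      if k = l then (if p ∈ k.1 then (n : ℝ) else 0) else 0 := by
    intro p
    by_cases h1 : p ∈ k.1
    · by_cases h2 : p ∈ l.1
      · simp only [ent, if_pos h1, if_pos h2]
        rw [D.row]
        by_cases h3 : k = l
        · subst h3; simp
        · rw [if_neg h3, if_neg (fun h4 => h3 (D.inj p k l h1 h2 h4))]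
      · have h3 : ¬ k = l := by
          rintro rfl; exact h2 h1
        simp only [ent, if_neg h2, mul_zero, Finset.sum_const_zero, if_neg h3]
    · simp only [ent, if_neg h1, zero_mul, Finset.sum_const_zero, ite_self]
  simp only [h1]
  split_ifs with h2
  · rw [← Finset.sum_filter, Finset.sum_const]
    have : (Finset.univ.filter (fun p => p ∈ k.1)) = k.1 := by ext; simp
    rw [this, D.sts.three k.1 k.2]
    simp
  · simp

theorem Dat.block_point (D : Dat B n i0 h s) (k : {b // b ∈ B}) (p : V) :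
    ∑ c : Fin n, ent h s (p, c) k * h i0 c = 0 := by
  by_cases h1 : p ∈ k.1
  · simp only [ent, if_pos h1]
    rw [D.row, if_neg (D.ne p k h1)]
  · simp only [ent, if_neg h1, zero_mul, Finset.sum_const_zero]

/-- The Steiner frame: `n (2 n - 1)` vectors in dimension `(n - 1) (2 n - 1) / 3`. -/
theorem Dat.steiner (D : Dat B n i0 h s) {N d : ℕ} (hN : N = n * (2 * n - 1))
    (hd : 3 * d = (n - 1) * (2 * n - 1)) :
    IsEtf N d (fun (q : V × Fin n) (b : {b // b ∈ B}) => ent h s q b / Real.sqrt ((n : ℝ) - 1)) := by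
  have hn4 : (4 : ℝ) ≤ n := by exact_mod_cast D.n4
  have hm : (0 : ℝ) < (n : ℝ) - 1 := by linarith
  have hNr : (N : ℝ) = n * (2 * n - 1) := by
    rw [hN, Nat.cast_mul, Nat.cast_sub (by have := D.n4; omega)]; push_cast; ring
  have hdr : (d : ℝ) = (n - 1) * (2 * n - 1) / 3 := by
    have h1 : ((3 * d : ℕ) : ℝ) = (((n - 1) * (2 * n - 1) : ℕ) : ℝ) := by rw [hd]
    rw [Nat.cast_mul (n - 1), Nat.cast_sub (by have := D.n4; omega),
      Nat.cast_sub (by have := D.n4; omega)] at h1
    push_cast at h1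
    linarith
  have hscale : ∀ x y : ℝ, x / Real.sqrt ((n : ℝ) - 1) * (y / Real.sqrt ((n : ℝ) - 1)) =
      x * y / ((n : ℝ) - 1) := by
    intro x y
    rw [div_mul_div_comm, Real.mul_self_sqrt hm.le]
  refine ⟨?_, ?_, ?_⟩
  · rintro ⟨p, c⟩
    have h1 : ∀ b, (ent h s (p, c) b / Real.sqrt ((n : ℝ) - 1)) ^ 2 =
        ent h s (p, c) b * ent h s (p, c) b / ((n : ℝ) - 1) := by
      intro b
      rw [pow_two, hscale]
    simp only [h1]
    rw [← Finset.sum_div, D.inner_same, if_pos rfl, D.sq, div_self hm.ne']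
  · rintro ⟨p, c⟩ ⟨q, e⟩ hpq
    simp only [hscale]
    rw [← Finset.sum_div, abs_div, abs_of_pos hm]
    have h1 : |∑ b, ent h s (p, c) b * ent h s (q, e) b| = 1 := by
      by_cases hp : p = q
      · subst hp
        have hc : c ≠ e := fun hc => hpq (by rw [hc])
        rw [D.inner_same, if_neg hc, zero_sub, abs_neg, abs_mul, D.abs, D.abs, one_mul]
      · exact D.inner_diff hp c e
    rw [h1]
    have h2 : ((N : ℝ) - d) / (d * ((N : ℝ) - 1)) = (1 / ((n : ℝ) - 1)) ^ 2 := by
      have h3 : (N : ℝ) - d = (2 * n - 1) * (2 * n + 1) / 3 := by rw [hNr, hdr]; ring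
      have h4 : (N : ℝ) - 1 = (2 * n + 1) * (n - 1) := by rw [hNr]; ring
      rw [h3, h4, hdr]
      have h5 : (2 * (n : ℝ) - 1) ≠ 0 := by
        have : (0 : ℝ) < 2 * n - 1 := by linarith
        exact this.ne'
      have h6 : (2 * (n : ℝ) + 1) ≠ 0 := by positivity
      have h7 : (n : ℝ) - 1 ≠ 0 := hm.ne'
      field_simp
    rw [h2, Real.sqrt_sq (by positivity)]
  · intro k l
    simp only [hscale]
    rw [← Finset.sum_div, D.tight_block]
    split_ifs
    · rw [hNr, hdr]
      have h5 : (2 * (n : ℝ) - 1) ≠ 0 := by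
        have : (0 : ℝ) < 2 * n - 1 := by linarith
        exact this.ne'
      have h7 : (n : ℝ) - 1 ≠ 0 := hm.ne'
      rw [div_eq_div_iff h7 (div_ne_zero (mul_ne_zero h7 h5) (by norm_num))]
      ring
    · rw [zero_div]

end RealETF
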