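import Pool.Agent.Lib_MP_3de5be_trip.Ste

/-!
# The Tremain frames
-/

set_option autoImplicit false

namespace RealETF

/-- A Hadamard matrix of order `2 n`, columns indexed by the points and one more element. -/
structure Dat2 {V : Type} [Fintype V] [DecidableEq V] (n : ℕ) (g : Fin (2 * n) → Option V → ℝ) : Prop where
  sqg : ∀ t x, g t x * g t x = 1
  row : ∀ t t', ∑ x, g t x * g t' x = if t = t' then 2 * (n : ℝ) else 0
  col : ∀ x y, ∑ t, g t x * g t y = if x = y then 2 * (n : ℝ) else 0

/-- The vectors before normalization; `a * a = 2`, `b * a = 1`, `c * c = 3 / 2`. -/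
def tre {V : Type} [DecidableEq V] {B : Finset (Finset V)} {n : ℕ} (i0 : Fin n)
    (h : Fin n → Fin n → ℝ) (s : V → {b // b ∈ B} → Fin n) (g : Fin (2 * n) → Option V → ℝ)
    (a b c : ℝ) : (V × Fin n) ⊕ Fin (2 * n) → {b // b ∈ B} ⊕ Option V → ℝ
  | Sum.inl q, Sum.inl k => ent h s q k
  | Sum.inl q, Sum.inr (some x) => if q.1 = x then a * h i0 q.2 else 0
  | Sum.inl _, Sum.inr none => 0
  | Sum.inr _, Sum.inl _ => 0
  | Sum.inr t, Sum.inr (some x) => b * g t (some x)
  | Sum.inr t, Sum.inr none => c * g t none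

variable {V : Type} [Fintype V] [DecidableEq V] {B : Finset (Finset V)} {n : ℕ} {i0 : Fin n}
  {h : Fin n → Fin n → ℝ} {s : V → {b // b ∈ B} → Fin n} {g : Fin (2 * n) → Option V → ℝ}
  {a b c : ℝ}

theorem Dat2.abs (E : Dat2 n g) (t : Fin (2 * n)) (x : Option V) : |g t x| = 1 := by
  have h1 := E.sqg t x
  have h2 : |g t x| * |g t x| = 1 := by rw [← abs_mul, h1, abs_one]
  have h3 : 0 ≤ |g t x| := abs_nonneg _
  nlinarith

/-- all inner products -/
theorem tre_inner_11 (D : Dat B n i0 h s) (ha : a * a = 2) (p q : V) (e f : Fin n) :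
    ∑ k, tre i0 h s g a b c (Sum.inl (p, e)) k * tre i0 h s g a b c (Sum.inl (q, f)) k =
      (∑ k, ent h s (p, e) k * ent h s (q, f) k) + if p = q then 2 * (h i0 e * h i0 f) else 0 := by
  rw [Fintype.sum_sum_type, Fintype.sum_option]
  simp only [tre, mul_zero, zero_add]
  congr 1
  by_cases hpq : p = q
  · subst hpq
    rw [if_pos rfl, Finset.sum_eq_single p]
    · rw [if_pos rfl, if_pos rfl]
      linear_combination (h i0 e * h i0 f) * ha
    · intro x _ hx
      rw [if_neg (fun h9 => hx h9.symm), zero_mul]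
    · intro h9
      exact absurd (Finset.mem_univ _) h9
  · rw [if_neg hpq]
    refine Finset.sum_eq_zero fun x _ => ?_
    by_cases h1 : p = x
    · have h3 : ¬ q = x := fun h2 => hpq (h1.trans h2.symm)
      rw [if_neg h3, mul_zero]
    · rw [if_neg h1, zero_mul]

theorem tre_inner_12 (hab : b * a = 1) (p : V) (e : Fin n) (t : Fin (2 * n)) :
    ∑ k, tre i0 h s g a b c (Sum.inl (p, e)) k * tre i0 h s g a b c (Sum.inr t) k =
      h i0 e * g t (some p) := by
  rw [Fintype.sum_sum_type, Fintype.sum_option]
  simp only [tre, mul_zero, zero_add, zero_mul, Finset.sum_const_zero]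
  rw [Finset.sum_eq_single p]
  · rw [if_pos rfl]
    linear_combination (h i0 e * g t (some p)) * hab
  · intro x _ hx
    rw [if_neg (fun h9 => hx h9.symm), zero_mul]
  · intro h9
    exact absurd (Finset.mem_univ _) h9

theorem tre_inner_22 (E : Dat2 n g) (hb : b * b = 1 / 2) (hc : c * c = 3 / 2)
    (t t' : Fin (2 * n)) :
    ∑ k, tre i0 h s g a b c (Sum.inr t) k * tre i0 h s g a b c (Sum.inr t') k =
      (if t = t' then (n : ℝ) else 0) + g t none * g t' none := by
  have h1 := E.row t t'
  rw [Fintype.sum_option] at h1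
  rw [Fintype.sum_sum_type, Fintype.sum_option]
  simp only [tre, mul_zero, zero_add, Finset.sum_const_zero]
  have h2 : ∀ x : V, b * g t (some x) * (b * g t' (some x)) =
      (1 / 2) * (g t (some x) * g t' (some x)) := by
    intro x
    linear_combination (g t (some x) * g t' (some x)) * hb
  simp only [h2]
  rw [← Finset.mul_sum]
  have h3 : ∑ x : V, g t (some x) * g t' (some x) =
      (if t = t' then 2 * (n : ℝ) else 0) - g t none * g t' none := by
    linear_combination h1
  rw [h3]
  split_ifs
  · linear_combination (g t none * g t' none) * hc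
  · linear_combination (g t none * g t' none) * hc

theorem tre_tight (D : Dat B n i0 h s) (E : Dat2 n g) (ha : a * a = 2) (hb : b * b = 1 / 2)
    (hc : c * c = 3 / 2) (k l : {b // b ∈ B} ⊕ Option V) :
    ∑ i, tre i0 h s g a b c i k * tre i0 h s g a b c i l = if k = l then 3 * (n : ℝ) else 0 := by
  rw [Fintype.sum_sum_type]
  have hpp : ∀ x : V, ∀ k : {b // b ∈ B},
      ∑ q : V × Fin n, ent h s q k * (if q.1 = x then a * h i0 q.2 else 0) = 0 := by
    intro x k
    rw [← Finset.univ_product_univ, Finset.sum_product, Finset.sum_eq_single x]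
    · have h1 : ∀ e : Fin n, ent h s (x, e) k * (if (x, e).1 = x then a * h i0 (x, e).2 else 0) =
          a * (ent h s (x, e) k * h i0 e) := by
        intro e
        rw [if_pos rfl]; ring
      rw [Finset.sum_congr rfl (fun e _ => h1 e), ← Finset.mul_sum, D.block_point, mul_zero]
    · intro p _ hp
      refine Finset.sum_eq_zero fun e _ => ?_
      rw [if_neg hp, mul_zero]
    · intro h9
      exact absurd (Finset.mem_univ _) h9
  have hsum : ∀ x y : Option V, ∀ r s' : ℝ, ∑ t, r * g t x * (s' * g t y) =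
      r * s' * (if x = y then 2 * (n : ℝ) else 0) := by
    intro x y r s'
    rw [← E.col x y, Finset.mul_sum]
    refine Finset.sum_congr rfl fun t _ => ?_
    ring
  rcases k with k | k | x <;> rcases l with l | l | y
  · simp only [tre, mul_zero, Finset.sum_const_zero, add_zero]
    rw [D.tight_block]
    simp only [Sum.inl.injEq]
  · simp only [tre, mul_zero, zero_mul, Finset.sum_const_zero, add_zero]
    rw [if_neg (by simp)]
  · simp only [tre, zero_mul, Finset.sum_const_zero, add_zero]
    rw [hpp, if_neg (by simp)]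
  · simp only [tre, mul_zero, zero_mul, Finset.sum_const_zero, add_zero]
    rw [if_neg (by simp)]
  · simp only [tre, mul_zero, Finset.sum_const_zero, zero_add]
    rw [hsum, if_pos rfl, if_pos trivial, hc]
    ring
  · simp only [tre, zero_mul, Finset.sum_const_zero, zero_add]
    rw [hsum, if_neg (by simp), if_neg (by simp), mul_zero]
  · simp only [tre, mul_zero, Finset.sum_const_zero, add_zero]
    have h1 : ∀ q : V × Fin n, (if q.1 = x then a * h i0 q.2 else 0) * ent h s q l =
        ent h s q l * (if q.1 = x then a * h i0 q.2 else 0) := fun q => mul_comm _ _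
    simp only [h1]
    rw [hpp, if_neg (by simp)]
  · simp only [tre, mul_zero, Finset.sum_const_zero, zero_add]
    rw [hsum, if_neg (by simp), if_neg (by simp), mul_zero]
  · simp only [tre]
    rw [hsum]
    by_cases hxy : x = y
    · subst hxy
      rw [if_pos rfl, if_pos rfl, ← Finset.univ_product_univ, Finset.sum_product,
        Finset.sum_eq_single x]
      · have h1 : ∀ e : Fin n, (if (x, e).1 = x then a * h i0 (x, e).2 else 0) *
            (if (x, e).1 = x then a * h i0 (x, e).2 else 0) = 2 := by
          intro e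
          rw [if_pos rfl]
          linear_combination (h i0 e * h i0 e) * ha + 2 * D.sq i0 e
        rw [Finset.sum_congr rfl (fun e _ => h1 e), Finset.sum_const, Finset.card_univ,
          Fintype.card_fin, nsmul_eq_mul, hb]
        ring
      · intro p _ hp
        refine Finset.sum_eq_zero fun e _ => ?_
        rw [if_neg hp, mul_zero]
      · intro h9
        exact absurd (Finset.mem_univ _) h9
    · rw [if_neg (by simpa using hxy), if_neg (by simpa using hxy), mul_zero, add_zero]
      refine Finset.sum_eq_zero fun q _ => ?_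
      by_cases h1 : q.1 = x
      · rw [if_neg (fun h2 => hxy (h1.symm.trans h2)), mul_zero]
      · rw [if_neg h1, zero_mul]

/-- The Tremain frame: `n (2 n + 1)` vectors in dimension `(n + 1) (2 n + 1) / 3`. -/
theorem Dat.tremain (D : Dat B n i0 h s) (E : Dat2 n g) {N d : ℕ} (hN : N = n * (2 * n + 1))
    (hd : 3 * d = (n + 1) * (2 * n + 1)) (ha : a * a = 2) (hb : b * b = 1 / 2) (hab : b * a = 1)
    (hc : c * c = 3 / 2) :
    IsEtf N d (fun i k => tre i0 h s g a b c i k / Real.sqrt ((n : ℝ) + 1)) := by
  have hn4 : (4 : ℝ) ≤ n := by exact_mod_cast D.n4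
  have hm : (0 : ℝ) < (n : ℝ) + 1 := by linarith
  have hNr : (N : ℝ) = n * (2 * n + 1) := by
    rw [hN]; push_cast; ring
  have hdr : (d : ℝ) = (n + 1) * (2 * n + 1) / 3 := by
    have h1 : ((3 * d : ℕ) : ℝ) = (((n + 1) * (2 * n + 1) : ℕ) : ℝ) := by rw [hd]
    push_cast at h1
    linarith
  have hscale : ∀ x y : ℝ, x / Real.sqrt ((n : ℝ) + 1) * (y / Real.sqrt ((n : ℝ) + 1)) =
      x * y / ((n : ℝ) + 1) := by
    intro x y
    rw [div_mul_div_comm, Real.mul_self_sqrt hm.le]
  refine ⟨?_, ?_, ?_⟩
  · intro i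
    have h1 : ∀ k, (tre i0 h s g a b c i k / Real.sqrt ((n : ℝ) + 1)) ^ 2 =
        tre i0 h s g a b c i k * tre i0 h s g a b c i k / ((n : ℝ) + 1) := by
      intro k
      rw [pow_two, hscale]
    simp only [h1]
    rw [← Finset.sum_div]
    rcases i with ⟨p, e⟩ | t
    · rw [tre_inner_11 D ha, D.inner_same, if_pos rfl, if_pos rfl, D.sq]
      rw [div_eq_one_iff_eq hm.ne']
      ring
    · rw [tre_inner_22 E hb hc, if_pos rfl, E.sqg, div_self hm.ne']
  · intro i j hij
    simp only [hscale]
    rw [← Finset.sum_div, abs_div, abs_of_pos hm]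
    have h1 : |∑ k, tre i0 h s g a b c i k * tre i0 h s g a b c j k| = 1 := by
      rcases i with ⟨p, e⟩ | t <;> rcases j with ⟨q, f⟩ | t'
      · rw [tre_inner_11 D ha]
        by_cases hp : p = q
        · subst hp
          have hef : e ≠ f := fun hef => hij (by rw [hef])
          rw [D.inner_same, if_neg hef, if_pos rfl]
          have h2 : 0 - h i0 e * h i0 f + 2 * (h i0 e * h i0 f) = h i0 e * h i0 f := by ring
          rw [h2, abs_mul, D.abs, D.abs, one_mul]
        · rw [if_neg hp, add_zero]
          exact D.inner_diff hp e f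
      · rw [tre_inner_12 hab, abs_mul, D.abs, E.abs, one_mul]
      · have h2 : ∀ k, tre i0 h s g a b c (Sum.inr t) k * tre i0 h s g a b c (Sum.inl (q, f)) k =
            tre i0 h s g a b c (Sum.inl (q, f)) k * tre i0 h s g a b c (Sum.inr t) k :=
          fun k => mul_comm _ _
        simp only [h2]
        rw [tre_inner_12 hab, abs_mul, D.abs, E.abs, one_mul]
      · have hef : t ≠ t' := fun hef => hij (by rw [hef])
        rw [tre_inner_22 E hb hc, if_neg hef, zero_add, abs_mul, E.abs, E.abs, one_mul]
    rw [h1]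
    have h2 : ((N : ℝ) - d) / (d * ((N : ℝ) - 1)) = (1 / ((n : ℝ) + 1)) ^ 2 := by
      have h3 : (N : ℝ) - d = (2 * n + 1) * (2 * n - 1) / 3 := by rw [hNr, hdr]; ring
      have h4 : (N : ℝ) - 1 = (2 * n - 1) * (n + 1) := by rw [hNr]; ring
      rw [h3, h4, hdr]
      have h5 : (2 * (n : ℝ) - 1) ≠ 0 := by
        have : (0 : ℝ) < 2 * n - 1 := by linarith
        exact this.ne'
      have h6 : (2 * (n : ℝ) + 1) ≠ 0 := by positivity
      have h7 : (n : ℝ) + 1 ≠ 0 := hm.ne'
      field_simp
    rw [h2, Real.sqrt_sq (by positivity)]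
  · intro k l
    simp only [hscale]
    rw [← Finset.sum_div, tre_tight D E ha hb hc]
    split_ifs
    · rw [hNr, hdr]
      have h5 : (2 * (n : ℝ) + 1) ≠ 0 := by positivity
      have h7 : (n : ℝ) + 1 ≠ 0 := hm.ne'
      rw [div_eq_div_iff h7 (div_ne_zero (mul_ne_zero h7 h5) (by norm_num))]
      ring
    · rw [zero_div]

end RealETF
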